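import Pool.Agent.DRWC.DispU

/-!
# Displacement of the directed-edge reinforced random walk on the square lattice

Almost surely, for all large `n`, the walk has reached distance at least `n ^ (1 / D)` by time `n`,
for every `D` larger than an explicit number `D(a)`, which tends to `2` as `a` tends to infinity.
-/

namespace Pool.Agent.Results.MP_a156a0_pr.Displacement

open Pool.Agent.DRWC

theorem result (a : ℝ) (ha : 0 < a) (Ω : Type) [MeasurableSpace Ω]
    (μ : MeasureTheory.Measure Ω) [MeasureTheory.IsProbabilityMeasure μ] (X : ℕ → Ω → ℤ × ℤ)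
    (hX : ∀ n, Measurable (X n))
    (hlaw : ∀ (n : ℕ) (s : ℕ → ℤ × ℤ), μ {ω | ∀ k ≤ n, X k ω = s k} =
       if s 0 = 0 then
         ENNReal.ofReal (∏ k ∈ Finset.range n,
          (if (s (k+1) - s k).1.natAbs + (s (k+1) - s k).2.natAbs = 1 then
            (a + (((Finset.range k).filter (fun j => s j = s k ∧ s (j+1) = s (k+1))).card : ℝ)) /
            (4 * a + (((Finset.range k).filter (fun j => s j = s k)).card : ℝ))
          else 0))
       else 0) (D : ℝ)
    (hD : (if 1 + a ≤ a ^ 2 then 2 + 2 * (1 + a) / a ^ 2 else 4 * √(1 + a) / a) < D) :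
    ∀ᵐ ω ∂μ, ∀ᶠ n : ℕ in Filter.atTop, ∃ j ≤ n,
      (n : ℝ) ^ (1 / D) ≤ ((X j ω).1.natAbs : ℝ) + ((X j ω).2.natAbs : ℝ) := by
  rw [← dx_eq ha] at hD
  exact displacement' ha hX hlaw hD

end Pool.Agent.Results.MP_a156a0_pr.Displacement
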