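import Pool.Agent.DRWC.Loc

/-!
# Escape of the directed-edge reinforced random walk on the square lattice

Lower bounds for the probability that the walk leaves a finite set before its `k`-th return to the
origin: comparison with the escape probability of the simple random walk, and explicit bounds for
the balls.  Almost sure upper bound for the number of visits to the origin up to time `n`.
-/

namespace Pool.Agent.Results.MP_a156a0_pr.EscapeBeforeReturns

open Pool.Agent.DRWC

theorem result (a : ℝ) (ha : 0 < a) (Ω : Type) [MeasurableSpace Ω]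
    (μ : MeasureTheory.Measure Ω) [MeasureTheory.IsProbabilityMeasure μ] (X : ℕ → Ω → ℤ × ℤ)
    (hX : ∀ n, Measurable (X n))
    (hlaw : ∀ (n : ℕ) (s : ℕ → ℤ × ℤ), μ {ω | ∀ k ≤ n, X k ω = s k} =
       if s 0 = 0 then
         ENNReal.ofReal (∏ k ∈ Finset.range n,
          (if (s (k+1) - s k).1.natAbs + (s (k+1) - s k).2.natAbs = 1 then
            (a + (((Finset.range k).filter (fun j => s j = s k ∧ s (j+1) = s (k+1))).card : ℝ)) /
            (4 * a + (((Finset.range k).filter (fun j => s j = s k)).card : ℝ))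
          else 0))
       else 0) :
    (∀ k : ℕ, 1 ≤ k → ∀ Λ : ℝ, Λ = ∑ j ∈ Finset.range k, 1 / (4 * a + (j : ℝ)) →
      (∀ B : Finset (ℤ × ℤ), (0 : ℤ × ℤ) ∈ B →
        ∀ (Ω' : Type) [MeasurableSpace Ω'] (ν : MeasureTheory.Measure Ω')
          [MeasureTheory.IsProbabilityMeasure ν] (Y : ℕ → Ω' → ℤ × ℤ),
        (∀ n, Measurable (Y n)) →
        (∀ (n : ℕ) (s : ℕ → ℤ × ℤ), ν {ω | ∀ k ≤ n, Y k ω = s k} =
          if s 0 = 0 then
            ENNReal.ofReal (∏ k ∈ Finset.range n,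
              (if (s (k+1) - s k).1.natAbs + (s (k+1) - s k).2.natAbs = 1 then (1 / 4 : ℝ)
              else 0))
          else 0) →
        ∀ p q : ℝ,
          p = (ν {ω | ∃ n, Y n ω ∉ B ∧ ∀ j, 0 < j → j < n → Y j ω ≠ 0}).toReal →
          q = (μ {ω | ∃ n, X n ω ∉ B ∧
            ((Finset.range n).filter (fun j => 0 < j ∧ X j ω = 0)).card < k}).toReal →
          2 / 5 * min 1 (a * Λ * √(2 * p / (1 + a))) ≤ q ∧
            1 - Real.exp (-min (a ^ 2 * Λ ^ 2 * p / (2 * (1 + a))) (a * Λ / 3)) ≤ q) ∧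
      (∀ N : ℕ, 1 ≤ N → ∀ q : ℝ,
          q = (μ {ω | ∃ n, N ≤ (X n ω).1.natAbs + (X n ω).2.natAbs ∧
            ((Finset.range n).filter (fun j => 0 < j ∧ X j ω = 0)).card < k}).toReal →
          2 / 5 * min 1 (a * Λ / √(2 * (1 + a) * (1 + Real.log N))) ≤ q ∧
            1 - Real.exp (-min (a ^ 2 * Λ ^ 2 / (8 * (1 + a) * (1 + Real.log N)))
              (2 * a * Λ / 3)) ≤ q)) ∧
    (∀ᵐ ω ∂μ, ∀ᶠ n : ℕ in Filter.atTop,
      (((Finset.range (n + 1)).filter (fun j => X j ω = 0)).card : ℝ) ≤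
        Real.exp (12 * (√(1 + a) / a) *
          √(Real.log n * Real.log (Real.log (Real.log n))))) := by
  refine ⟨?_, local_time ha μ X hX hlaw⟩
  intro k hk Λ hΛ
  have hlam : Λ = lam a k := hΛ
  subst hlam
  refine ⟨?_, ?_⟩
  · intro B h0 Ω' _ ν _ Y _ hlawY p q hp hq
    exact srw_lower ha μ X hX hlaw h0 hk ν Y hlawY hp hq
  · intro N hN q hq
    exact ball_lower ha μ X hX hlaw hk hN hq

end Pool.Agent.Results.MP_a156a0_pr.EscapeBeforeReturns
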