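import Pool.Agent.DRWC.Fav

/-!
# Favourite sites of the directed-edge reinforced random walk on the square lattice

Almost surely, for all large `n`, no vertex is visited more than `n ^ β` times up to time `n`, and
at least `n ^ (1 - β)` distinct vertices are visited, for every `β > 4 √(1 + a) / a`.
-/

namespace Pool.Agent.Results.MP_a156a0_pr.FavouriteSites

open Pool.Agent.DRWC

theorem result (a : ℝ) (ha : 0 < a) (Ω : Type) [MeasurableSpace Ω]
    (μ : MeasureTheory.Measure Ω) [MeasureTheory.IsProbabilityMeasure μ] (X : ℕ → Ω → ℤ × ℤ)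
    (hlaw : ∀ (n : ℕ) (s : ℕ → ℤ × ℤ), μ {ω | ∀ k ≤ n, X k ω = s k} =
       if s 0 = 0 then
         ENNReal.ofReal (∏ k ∈ Finset.range n,
          (if (s (k+1) - s k).1.natAbs + (s (k+1) - s k).2.natAbs = 1 then
            (a + (((Finset.range k).filter (fun j => s j = s k ∧ s (j+1) = s (k+1))).card : ℝ)) /
            (4 * a + (((Finset.range k).filter (fun j => s j = s k)).card : ℝ))
          else 0))
       else 0) (β : ℝ) (hβ : 4 * √(1 + a) / a < β) :
    ∀ᵐ ω ∂μ, ∀ᶠ n : ℕ in Filter.atTop,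
      (∀ x : ℤ × ℤ, (((Finset.range (n + 1)).filter (fun j => X j ω = x)).card : ℝ) ≤
        (n : ℝ) ^ β) ∧
      (n : ℝ) ^ (1 - β) ≤ (((Finset.range (n + 1)).image (fun j => X j ω)).card : ℝ) :=
  fav ha hlaw hβ

end Pool.Agent.Results.MP_a156a0_pr.FavouriteSites
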